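import Pool.Agent.H308R3.DM.Stmts

set_option autoImplicit false

namespace Pool.Agent.H790.DM

open Finset Filter Topology
open scoped Classical BigOperators ENNReal
open Pool.Agent.H308R3.DM

theorem card_le_sum {n : ℕ} {β : ℝ} {r : ℕ} (hbd : (bd (sq 0 r)).card = 4 * r)
    (S : Finset (Fin n → Stp)) (hS : ∀ ω ∈ S, rng 0 ω = sq 0 r) :
    (S.card : ℝ) * Real.exp (-β * (4 * r)) ≤ ∑ ω : Fin n → Stp, wt β (rng 0 ω) := by
  calc (S.card : ℝ) * Real.exp (-β * (4 * r)) = ∑ _ω ∈ S, Real.exp (-β * (4 * r)) := by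
        rw [sum_const, nsmul_eq_mul]
    _ = ∑ ω ∈ S, wt β (rng 0 ω) := by
        refine sum_congr rfl fun ω hω => ?_
        unfold wt
        rw [hS ω hω, hbd]
        push_cast
        rfl
    _ ≤ ∑ ω : Fin n → Stp, wt β (rng 0 ω) :=
        sum_le_sum_of_subset_of_nonneg (subset_univ S) fun ω _ _ => (Real.exp_pos _).le

theorem T_nonneg (n : ℕ) (β : ℝ) : 0 ≤ (∑ ω : Fin n → Stp, wt β (rng 0 ω)) / 4 ^ n :=
  div_nonneg (sum_nonneg fun ω _ => (Real.exp_pos _).le) (by positivity)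

theorem T_le_one (n : ℕ) {β : ℝ} (hβ : 0 ≤ β) :
    (∑ ω : Fin n → Stp, wt β (rng 0 ω)) / 4 ^ n ≤ 1 := by
  rw [div_le_one (by positivity)]
  calc ∑ ω : Fin n → Stp, wt β (rng 0 ω) ≤ ∑ _ω : Fin n → Stp, (1 : ℝ) := by
        refine sum_le_sum fun ω _ => ?_
        unfold wt
        rw [Real.exp_le_one_iff]
        have : (0 : ℝ) ≤ (bd (rng 0 ω)).card := Nat.cast_nonneg _
        nlinarith
    _ = 4 ^ n := by
        simp

theorem hasSum_pois (t x : ℝ) :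
    HasSum (fun n : ℕ => Real.exp (-t) * t ^ n / n.factorial * x ^ n)
      (Real.exp (-(t * (1 - x)))) := by
  have h1 : HasSum (fun n : ℕ => (t * x) ^ n / n.factorial) (Real.exp (t * x)) := by
    rw [Real.exp_eq_exp_ℝ]
    exact NormedSpace.expSeries_div_hasSum_exp (t * x)
  have h2 := h1.mul_left (Real.exp (-t))
  rw [← Real.exp_add] at h2
  have e : -t + t * x = -(t * (1 - x)) := by ring
  rw [e] at h2
  have e2 : (fun n : ℕ => Real.exp (-t) * t ^ n / n.factorial * x ^ n) =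
      fun n : ℕ => Real.exp (-t) * ((t * x) ^ n / n.factorial) := by
    funext n
    rw [mul_pow]
    ring
  rw [e2]
  exact h2

theorem a_nonneg {t : ℝ} (ht : 0 ≤ t) (n : ℕ) : 0 ≤ Real.exp (-t) * t ^ n / n.factorial := by
  positivity

theorem term_bound {C₁ β t : ℝ} (ht : 0 ≤ t) {r m : ℕ} {ν : ℝ} (hν0 : 0 ≤ ν)
    (hν1 : ν ≤ 1) (hbd : (bd (sq 0 r)).card = 4 * r)
    (hL : ∀ n : ℕ, m ≤ n → Real.exp (-C₁ * r) * ν ^ n ≤
      (((univ : Finset (Fin n → Stp)).filter (fun ω => rng 0 ω = sq 0 r)).card : ℝ) / 4 ^ n)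
    (n : ℕ) :
    Real.exp (-C₁ * r + -β * (4 * r)) * (Real.exp (-t) * t ^ n / n.factorial * ν ^ n)
      - Real.exp (-C₁ * r + -β * (4 * r)) * 2 ^ m *
        (Real.exp (-t) * t ^ n / n.factorial * (1 / 2) ^ n) ≤
    Real.exp (-t) * t ^ n / n.factorial * ((∑ ω : Fin n → Stp, wt β (rng 0 ω)) / 4 ^ n) := by
  have ha := a_nonneg ht n
  set a := Real.exp (-t) * t ^ n / n.factorial with ha_def
  set K := Real.exp (-C₁ * r + -β * (4 * r)) with hK_def
  have hK : 0 < K := Real.exp_pos _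
  rcases le_or_gt m n with hmn | hmn
  · have h1 := card_le_sum (n := n) (β := β) hbd
      ((univ : Finset (Fin n → Stp)).filter (fun ω => rng 0 ω = sq 0 r))
      (fun ω hω => (mem_filter.1 hω).2)
    have h2 : K * ν ^ n ≤ (∑ ω : Fin n → Stp, wt β (rng 0 ω)) / 4 ^ n := by
      calc K * ν ^ n = Real.exp (-C₁ * r) * ν ^ n * Real.exp (-β * (4 * r)) := by
            rw [hK_def, Real.exp_add]; ring
        _ ≤ (((univ : Finset (Fin n → Stp)).filter (fun ω => rng 0 ω = sq 0 r)).card : ℝ)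
              / 4 ^ n * Real.exp (-β * (4 * r)) :=
            mul_le_mul_of_nonneg_right (hL n hmn) (Real.exp_pos _).le
        _ = (((univ : Finset (Fin n → Stp)).filter (fun ω => rng 0 ω = sq 0 r)).card : ℝ)
              * Real.exp (-β * (4 * r)) / 4 ^ n := by ring
        _ ≤ _ := by gcongr
    have h3 := mul_le_mul_of_nonneg_left h2 ha
    have h4 : 0 ≤ K * 2 ^ m * (a * (1 / 2) ^ n) := by positivity
    have h5 : K * (a * ν ^ n) = a * (K * ν ^ n) := by ring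
    linarith
  · have h1 : ν ^ n ≤ 1 := pow_le_one₀ hν0 hν1
    have h2 : (1 : ℝ) ≤ 2 ^ m * (1 / 2) ^ n := by
      obtain ⟨k, rfl⟩ := Nat.exists_eq_add_of_le hmn.le
      rw [pow_add, one_div, inv_pow]
      have : (2 : ℝ) ^ n * 2 ^ k * (2 ^ n)⁻¹ = 2 ^ k := by field_simp
      rw [this]
      exact one_le_pow₀ (by norm_num)
    have h3 : 0 ≤ a * ((∑ ω : Fin n → Stp, wt β (rng 0 ω)) / 4 ^ n) :=
      mul_nonneg ha (T_nonneg n β)
    have h4 : 0 ≤ K * a * (2 ^ m * (1 / 2) ^ n - ν ^ n) :=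
      mul_nonneg (mul_nonneg hK.le ha) (by linarith)
    have h5 : K * (a * ν ^ n) - K * 2 ^ m * (a * (1 / 2) ^ n)
      = -(K * a * (2 ^ m * (1 / 2) ^ n - ν ^ n)) := by ring
    linarith

theorem Es_bound {C₁ β t : ℝ} (hβ : 0 ≤ β) (ht : 0 ≤ t) {r m : ℕ} {ν : ℝ} (hν0 : 0 ≤ ν)
    (hν1 : ν ≤ 1) (hbd : (bd (sq 0 r)).card = 4 * r)
    (hL : ∀ n : ℕ, m ≤ n → Real.exp (-C₁ * r) * ν ^ n ≤
      (((univ : Finset (Fin n → Stp)).filter (fun ω => rng 0 ω = sq 0 r)).card : ℝ) / 4 ^ n) :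
    Real.exp (-C₁ * r + -β * (4 * r)) * Real.exp (-(t * (1 - ν)))
      - Real.exp (-C₁ * r + -β * (4 * r)) * 2 ^ m * Real.exp (-(t * (1 - 1 / 2))) ≤
      Es t (wt β) := by
  have h1 := (hasSum_pois t ν).mul_left (Real.exp (-C₁ * r + -β * (4 * r)))
  have h2 := (hasSum_pois t (1 / 2)).mul_left (Real.exp (-C₁ * r + -β * (4 * r)) * 2 ^ m)
  have h3 := h1.sub h2
  have hs : Summable (fun n : ℕ => Real.exp (-t) * t ^ n / n.factorial *
      ((∑ ω : Fin n → Stp, wt β (rng 0 ω)) / 4 ^ n)) := by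
    refine Summable.of_nonneg_of_le (fun n => mul_nonneg (a_nonneg ht n) (T_nonneg n β))
      (fun n => ?_) (hasSum_pois t 1).summable
    rw [one_pow]
    exact mul_le_mul_of_nonneg_left (T_le_one n hβ) (a_nonneg ht n)
  exact hasSum_le (fun n => term_bound ht hν0 hν1 hbd hL n) h3 hs.hasSum

theorem taskZ : TaskLBF → TaskBdCard → TaskZ := by
  rintro ⟨C₁, hC₁, hLBF⟩ hBd
  refine ⟨C₁ / 2 + 1, 1 + C₁ * Real.pi ^ 2, by positivity, by positivity, ?_⟩
  intro β hβ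
  have hπ := Real.pi_gt_three
  have hπ4 := Real.pi_lt_d2
  have hβ1 : 1 ≤ β := by nlinarith [mul_pos hC₁ (pow_pos Real.pi_pos 2)]
  have hβC : C₁ * Real.pi ^ 2 ≤ β := by linarith
  have hβ0 : 0 < β := by linarith
  filter_upwards [eventually_ge_atTop (729 * β), eventually_ge_atTop (8 : ℝ)] with t ht ht8
  have ht0 : 0 < t := by linarith
  obtain ⟨p, hp⟩ : ∃ p, p = ps β t := ⟨_, rfl⟩
  rw [← hp]
  have hbase : 0 < Real.pi ^ 2 * t / β := by positivity
  have hp0 : 0 < p := by rw [hp]; unfold ps; positivity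
  have hp3 : p ^ 3 = Real.pi ^ 2 * t / β := by
    rw [hp]; unfold ps
    rw [← Real.rpow_natCast, ← Real.rpow_mul hbase.le]
    norm_num
  have hp9 : 9 ≤ p := by
    by_contra hlt
    rw [not_le] at hlt
    have h1 : p ^ 3 < 9 ^ 3 := by gcongr
    rw [hp3, div_lt_iff₀ hβ0] at h1
    have h2 : 1 ≤ Real.pi ^ 2 := by nlinarith
    have h3 : 1 * t ≤ Real.pi ^ 2 * t := by gcongr
    linarith
  have hβp3 : β * p ^ 3 = Real.pi ^ 2 * t := by
    rw [hp3]; field_simp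
  obtain ⟨r, hr⟩ : ∃ r : ℕ, r = ⌊p / 2⌋₊ := ⟨_, rfl⟩
  have hrle : (r : ℝ) ≤ p / 2 := by rw [hr]; exact Nat.floor_le (by positivity)
  have hrlt : p / 2 < (r : ℝ) + 1 := by rw [hr]; exact Nat.lt_floor_add_one _
  have hr1 : 1 ≤ r := by
    rw [hr]; exact Nat.le_floor (by push_cast; linarith)
  obtain ⟨m, hm⟩ : ∃ m : ℕ, m = ⌈C₁ * (r : ℝ) ^ 3⌉₊ := ⟨_, rfl⟩
  have hmge : C₁ * (r : ℝ) ^ 3 ≤ m := by rw [hm]; exact Nat.le_ceil _
  have hmlt : (m : ℝ) < C₁ * (r : ℝ) ^ 3 + 1 := by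
    rw [hm]; exact Nat.ceil_lt_add_one (by positivity)
  set ν := Real.cos (Real.pi / (2 * (r + 1))) ^ 2 with hν
  have hν0 : 0 ≤ ν := sq_nonneg _
  have hν1 : ν ≤ 1 := Real.cos_sq_le_one _
  have hE := Es_bound (C₁ := C₁) (β := β) (t := t) hβ0.le ht0.le (r := r) (m := m) hν0 hν1
    (hBd r hr1) (fun n hn => hLBF r hr1 n (hmge.trans (by exact_mod_cast hn)))
  -- the bound on 1 - ν
  have hνb : 1 - ν ≤ Real.pi ^ 2 / p ^ 2 := by
    have h1 : 1 - ν = Real.sin (Real.pi / (2 * (r + 1))) ^ 2 := by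
      rw [hν, Real.sin_sq]
    have h2 : 0 < Real.pi / (2 * ((r : ℝ) + 1)) := by positivity
    have h3 : Real.pi / (2 * ((r : ℝ) + 1)) ≤ Real.pi / p := by
      apply div_le_div_of_nonneg_left Real.pi_pos.le hp0
      linarith
    have h4 : |Real.sin (Real.pi / (2 * (r + 1)))| ≤ |Real.pi / (2 * ((r : ℝ) + 1))| :=
      Real.abs_sin_le_abs
    rw [h1, ← div_pow, ← sq_abs (Real.sin _)]
    rw [abs_of_pos h2] at h4
    have h5 : |Real.sin (Real.pi / (2 * (r + 1)))| ≤ Real.pi / p := h4.trans h3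
    gcongr
  have htν : t * (1 - ν) ≤ β * p := by
    calc t * (1 - ν) ≤ t * (Real.pi ^ 2 / p ^ 2) := by gcongr
      _ = (Real.pi ^ 2 * t) / p ^ 2 := by ring
      _ = β * p := by rw [← hβp3]; field_simp
  -- β p ≤ t / 8
  have hβp : β * p ≤ t / 8 := by
    have h1 : β * p * p ^ 2 = Real.pi ^ 2 * t := by rw [← hβp3]; ring
    have h2 : Real.pi ^ 2 ≤ 10 := by nlinarith
    have h3 : 81 ≤ p ^ 2 := by nlinarith
    have h4 : β * p * 81 ≤ 10 * t := by
      calc β * p * 81 ≤ β * p * p ^ 2 := by gcongr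
        _ = Real.pi ^ 2 * t := h1
        _ ≤ 10 * t := by gcongr
    linarith
  -- the bound on m
  have hmb : (m : ℝ) ≤ t / 8 + 1 := by
    have h1 : C₁ * (r : ℝ) ^ 3 ≤ C₁ * (p / 2) ^ 3 := by gcongr
    have h2 : C₁ * (p / 2) ^ 3 = C₁ * Real.pi ^ 2 * t / β / 8 := by
      rw [div_pow, hp3]; ring
    have h3 : C₁ * Real.pi ^ 2 * t / β ≤ t := by
      rw [div_le_iff₀ hβ0]
      nlinarith
    linarith
  have h2m : (2 : ℝ) ^ m ≤ Real.exp (t / 8 + 1) := by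
    calc (2 : ℝ) ^ m ≤ Real.exp 1 ^ m := by
          gcongr
          have := Real.add_one_le_exp (1 : ℝ)
          linarith
      _ = Real.exp m := by rw [← Real.exp_nat_mul, mul_one]
      _ ≤ _ := Real.exp_le_exp.2 hmb
  have hhalf : Real.exp (-1) ≤ 1 / 2 := by
    rw [Real.exp_neg, one_div]
    apply inv_anti₀ (by norm_num)
    have := Real.add_one_le_exp (1 : ℝ)
    linarith
  have hb1 : Real.exp (-(β * p)) ≤ Real.exp (-(t * (1 - ν))) := by
    apply Real.exp_le_exp.2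
    linarith
  have hb2 : (2 : ℝ) ^ m * Real.exp (-(t * (1 - 1 / 2))) ≤
      Real.exp (-(β * p)) * Real.exp (-1) := by
    calc (2 : ℝ) ^ m * Real.exp (-(t * (1 - 1 / 2)))
        ≤ Real.exp (t / 8 + 1) * Real.exp (-(t * (1 - 1 / 2))) := by gcongr
      _ = Real.exp (t / 8 + 1 + -(t * (1 - 1 / 2))) := (Real.exp_add _ _).symm
      _ ≤ Real.exp (-(β * p) + -1) := by
          apply Real.exp_le_exp.2
          linarith
      _ = _ := Real.exp_add _ _
  have hb3 : Real.exp (-p) ≤ 1 / 2 := by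
    refine le_trans (Real.exp_le_exp.2 ?_) hhalf
    linarith
  have hbr : Real.exp (-(β * p)) * Real.exp (-p) ≤
      Real.exp (-(t * (1 - ν))) - 2 ^ m * Real.exp (-(t * (1 - 1 / 2))) := by
    have hpos : 0 < Real.exp (-(β * p)) := Real.exp_pos _
    have h1 : Real.exp (-(β * p)) * Real.exp (-p) ≤ Real.exp (-(β * p)) * (1 / 2) := by gcongr
    have h2 : Real.exp (-(β * p)) * Real.exp (-1) ≤ Real.exp (-(β * p)) * (1 / 2) := by gcongr
    linarith
  have hK : Real.exp (-(C₁ * p / 2) - 2 * β * p) ≤ Real.exp (-C₁ * r + -β * (4 * r)) := by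
    apply Real.exp_le_exp.2
    have h1 : C₁ * (r : ℝ) ≤ C₁ * (p / 2) := by gcongr
    have h2 : β * (r : ℝ) ≤ β * (p / 2) := by gcongr
    linarith
  calc Real.exp (-(3 * β + (C₁ / 2 + 1)) * p)
      = Real.exp (-(C₁ * p / 2) - 2 * β * p) * (Real.exp (-(β * p)) * Real.exp (-p)) := by
        rw [← Real.exp_add, ← Real.exp_add]
        congr 1
        ring
    _ ≤ Real.exp (-C₁ * r + -β * (4 * r)) *
        (Real.exp (-(t * (1 - ν))) - 2 ^ m * Real.exp (-(t * (1 - 1 / 2)))) := by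
        refine mul_le_mul hK hbr (by positivity) (Real.exp_pos _).le
    _ = Real.exp (-C₁ * r + -β * (4 * r)) * Real.exp (-(t * (1 - ν)))
        - Real.exp (-C₁ * r + -β * (4 * r)) * 2 ^ m * Real.exp (-(t * (1 - 1 / 2))) := by ring
    _ ≤ Es t (wt β) := hE

end Pool.Agent.H790.DM
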